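import Pool.Agent.R3B.StmtsU

/-!
Squad R3B, row KEY: the key one-step estimate for the energy drops with an integrable bound of the
linearized damping (adaptation of `Helper72_Shell.CharSol.key_step`).
-/

set_option autoImplicit false

open Real Filter Topology Set MeasureTheory

namespace Pool.Agent.R3B.H40

open Pool.Agent.Helper39_Wave (phi phi_neg phi_zero phi_of_nonneg continuous_phi monotone_phi phi_nonneg mul_phi
  phi_sub_le phi_sq_le abs_rpow_sub_le phi_ge_tangent scalar_step hasDerivAt_phi abs_phi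
  sq_integral_mul_le sq_integral_le integral_reflect integrableOn_rect integral_swap_cont J_bound)
open Pool.Agent.Helper72_Shell (CharSol En psi fold ff)

/-- Cauchy-Schwarz with weights. -/
theorem cs_weight {a b : ℝ} (hab : a ≤ b) {p q m : ℝ → ℝ} (hp : Continuous p) (hq : Continuous q)
    (hm : Continuous m) (p0 : ∀ x, 0 ≤ p x) (q0 : ∀ x, 0 ≤ q x)
    (h : ∀ x, m x ^ 2 ≤ p x * q x) :
    (∫ x in a..b, m x) ^ 2 ≤ (∫ x in a..b, p x) * ∫ x in a..b, q x := by
  have key : ∀ x : ℝ, 0 ≤ (∫ t in a..b, p t) * (x * x) + (2 * ∫ t in a..b, m t) * x +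
      ∫ t in a..b, q t := by
    intro x
    have c1 : Continuous (fun t => x * x * p t) := continuous_const.mul hp
    have c2 : Continuous (fun t => 2 * x * m t) := continuous_const.mul hm
    have h1 : 0 ≤ ∫ t in a..b, ((x * x * p t + 2 * x * m t) + q t) := by
      apply intervalIntegral.integral_nonneg hab
      intro t _
      have e1 := h t
      have e2 := p0 t
      have e3 := q0 t
      rcases e2.eq_or_lt with hz | hz
      · rw [← hz] at e1 ⊢
        have e4 : m t = 0 := by
          have : m t ^ 2 ≤ 0 := by linarith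
          nlinarith
        rw [e4]
        linarith
      · have e4 : 0 ≤ p t * ((x * x * p t + 2 * x * m t) + q t) := by
          nlinarith [sq_nonneg (x * p t + m t)]
        exact nonneg_of_mul_nonneg_right e4 hz
    have h2 : ∫ t in a..b, ((x * x * p t + 2 * x * m t) + q t) =
        (∫ t in a..b, p t) * (x * x) + (2 * ∫ t in a..b, m t) * x + ∫ t in a..b, q t := by
      have c3 : Continuous (fun t => x * x * p t + 2 * x * m t) := c1.add c2
      rw [intervalIntegral.integral_add (c3.intervalIntegrable _ _)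
        (hq.intervalIntegrable _ _), intervalIntegral.integral_add (c1.intervalIntegrable _ _)
        (c2.intervalIntegrable _ _), intervalIntegral.integral_const_mul,
        intervalIntegral.integral_const_mul]
      ring
    rw [h2] at h1
    exact h1
  have hd := discrim_le_zero key
  unfold discrim at hd
  nlinarith

/-- The linearized damping at two equivalent times. -/
theorem phi_diff {α c A B w : ℝ} (hα : 0 < α) (hc : 0 ≤ c) (hA : c * |A| ^ α ≤ w)
    (hB : c * |B| ^ α ≤ w) : c * |phi α B - phi α A| ≤ (α + 1) * w * |B - A| := by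
  have h1 : ∀ M : ℝ, |A| ≤ M → |B| ≤ M → c * M ^ α ≤ w →
      c * |phi α B - phi α A| ≤ (α + 1) * w * |B - A| := by
    intro M hAM hBM hM
    have h2 := mul_le_mul_of_nonneg_left (phi_sub_le hα hAM hBM) hc
    have h3 : (α + 1) * (c * M ^ α) * |B - A| ≤ (α + 1) * w * |B - A| := by
      apply mul_le_mul_of_nonneg_right _ (abs_nonneg _)
      exact mul_le_mul_of_nonneg_left hM (by linarith)
    calc c * |phi α B - phi α A| ≤ c * ((α + 1) * M ^ α * |B - A|) := h2
      _ = (α + 1) * (c * M ^ α) * |B - A| := by ring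
      _ ≤ _ := h3
  rcases le_total |A| |B| with h | h
  · exact h1 |B| h le_rfl hB
  · exact h1 |A| le_rfl h hA

theorem key : KeyStmt := by
  intro κ α ℓ b0 b P T w W h hT hK
  have hα := h.apos
  have hℓ := h.lpos
  have hκ := h.kpos
  have hl2 : (0 : ℝ) ≤ 2 * ℓ := by linarith
  have hWc := hK.cont
  have hWp : Function.Periodic W (2 * ℓ) := hK.per
  -- integrals of the bound over intervals of length `2ℓ`
  have hWint : ∀ a y : ℝ, ∫ r in a..(a + 2 * ℓ), W (y - r) ≤ w := by
    intro a y
    rw [intervalIntegral.integral_comp_sub_left]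
    have e1 : y - a = (y - (a + 2 * ℓ)) + 2 * ℓ := by ring
    rw [e1, hWp.intervalIntegral_add_eq (y - (a + 2 * ℓ)) 0, zero_add]
    exact hK.int
  have hw0 : 0 ≤ w := by
    refine le_trans ?_ (hWint 0 0)
    exact intervalIntegral.integral_nonneg (by linarith) (fun _ _ => hK.nn _)
  have hWint2 : ∀ y : ℝ, ∫ r in T..(T + 2 * (2 * ℓ)), W (y - r) ≤ 2 * w := by
    intro y
    have cW : Continuous (fun r => W (y - r)) := hWc.comp (by fun_prop)
    rw [← intervalIntegral.integral_add_adjacent_intervals (b := T + 2 * ℓ)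
      (cW.intervalIntegrable _ _) (cW.intervalIntegrable _ _)]
    have e1 := hWint T y
    have e2 := hWint (T + 2 * ℓ) y
    have e3 : T + 2 * ℓ + 2 * ℓ = T + 2 * (2 * ℓ) := by ring
    rw [e3] at e2
    linarith
  -- the functions of `y`
  set F : ℝ → ℝ := fun y => ∫ r in (T + (2 * ℓ))..(T + 2 * (2 * ℓ)), ff α b P r y with hF
  set Fs : ℝ → ℝ := fun y => ∫ r in T..(T + 2 * (2 * ℓ)), |ff α b P r y| with hFs
  set V : ℝ → ℝ := fun y => ∫ r in T..(T + (2 * ℓ)), |ff α b P r y - ff α b P (r + (2 * ℓ)) y| with hV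
  have cff2 : Continuous (fun z : ℝ × ℝ => ff α b P z.2 z.1) := h.cff continuous_snd continuous_fst
  have cF : Continuous F := by
    apply intervalIntegral.continuous_parametric_intervalIntegral_of_continuous'
    exact cff2
  have cFs : Continuous Fs := by
    apply intervalIntegral.continuous_parametric_intervalIntegral_of_continuous'
    exact cff2.abs
  have cV : Continuous V := by
    apply intervalIntegral.continuous_parametric_intervalIntegral_of_continuous'
    exact (cff2.sub (h.cff (by fun_prop : Continuous fun z : ℝ × ℝ => z.2 + (2 * ℓ))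
      continuous_fst)).abs
  have hFs0 : ∀ y, 0 ≤ Fs y := fun y =>
    intervalIntegral.integral_nonneg (by linarith) (fun _ _ => abs_nonneg _)
  have hFsp : Function.Periodic Fs (2 * ℓ) := by
    intro y
    simp only [hFs]
    congr 1
    funext r
    rw [h.ff_per r y]
  set S : ℝ := ∫ y in (0 : ℝ)..(2 * ℓ), Fs y ^ 2 with hS
  have hS0 : 0 ≤ S := intervalIntegral.integral_nonneg hl2 (fun y _ => sq_nonneg _)
  set Q : ℝ := ∫ y in (0 : ℝ)..(2 * ℓ), F y ^ 2 with hQ
  have hQ0 : 0 ≤ Q := intervalIntegral.integral_nonneg hl2 (fun y _ => sq_nonneg _)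
  -- bound of `S`
  have hSE : κ ^ 2 * S ≤ 2 * w * (En ℓ P T - En ℓ P (T + 2 * (2 * ℓ))) := by
    have e1 := h.energy_identity hT (by linarith : T ≤ T + 2 * (2 * ℓ))
    have hpt : ∀ y ∈ Icc (0 : ℝ) (2 * ℓ), (κ * Fs y) ^ 2 ≤ (2 * w * κ) *
        ∫ r in T..(T + 2 * (2 * ℓ)), b (y - r) * |P r y - P r (2 * r - y)| ^ (α + 2) := by
      intro y _
      have cfr : Continuous (fun r => ff α b P r y) := h.cff continuous_id continuous_const
      have cDr : Continuous (fun r => b (y - r) * |P r y - P r (2 * r - y)| ^ (α + 2)) :=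
        h.cD continuous_id continuous_const
      have cDa : Continuous (fun r => κ * b (y - r) * |P r y - P r (2 * r - y)| ^ α) := by
        apply Continuous.mul
        · exact continuous_const.mul (h.bcont.comp (by fun_prop))
        · apply Continuous.rpow_const
          · exact ((h.contP continuous_id continuous_const).sub
              (h.contP continuous_id (by fun_prop))).abs
          · intro x
            right
            exact hα.le
      have a1 := cs_weight (by linarith : T ≤ T + 2 * (2 * ℓ))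
        (p := fun r => κ * b (y - r) * |P r y - P r (2 * r - y)| ^ α)
        (q := fun r => κ * (b (y - r) * |P r y - P r (2 * r - y)| ^ (α + 2)))
        (m := fun r => κ * |ff α b P r y|)
        cDa (continuous_const.mul cDr) (continuous_const.mul cfr.abs)
        (fun r => mul_nonneg (mul_nonneg hκ.le (h.bnn _)) (Real.rpow_nonneg (abs_nonneg _) _))
        (fun r => mul_nonneg hκ.le (mul_nonneg (h.bnn _) (Real.rpow_nonneg (abs_nonneg _) _)))
        (by
          intro r
          have b1 : phi α (P r y - P r (2 * r - y)) ^ 2 =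
              |P r y - P r (2 * r - y)| ^ α * |P r y - P r (2 * r - y)| ^ (α + 2) := by
            rw [← mul_phi hα]; unfold phi; ring
          have b2 : (κ * |ff α b P r y|) ^ 2 = κ ^ 2 * (b (y - r) ^ 2 *
              phi α (P r y - P r (2 * r - y)) ^ 2) := by
            rw [mul_pow, sq_abs]
            unfold ff
            ring
          show (κ * |ff α b P r y|) ^ 2 ≤ κ * b (y - r) * |P r y - P r (2 * r - y)| ^ α *
            (κ * (b (y - r) * |P r y - P r (2 * r - y)| ^ (α + 2)))
          rw [b2, b1]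
          apply le_of_eq
          ring)
      rw [intervalIntegral.integral_const_mul, intervalIntegral.integral_const_mul] at a1
      have a2 : ∫ r in T..(T + 2 * (2 * ℓ)), κ * b (y - r) * |P r y - P r (2 * r - y)| ^ α ≤
          2 * w := by
        refine le_trans ?_ (hWint2 y)
        apply intervalIntegral.integral_mono_on (by linarith) (cDa.intervalIntegrable _ _)
        · exact (hWc.comp (by fun_prop : Continuous fun r : ℝ => y - r)).intervalIntegrable _ _
        · intro r hr
          exact hK.bd r y hr.1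
      have a3 : 0 ≤ κ * ∫ r in T..(T + 2 * (2 * ℓ)),
          b (y - r) * |P r y - P r (2 * r - y)| ^ (α + 2) := by
        apply mul_nonneg hκ.le
        apply intervalIntegral.integral_nonneg (by linarith)
        intro r _
        exact mul_nonneg (h.bnn _) (Real.rpow_nonneg (abs_nonneg _) _)
      have a4 := mul_le_mul_of_nonneg_right a2 a3
      calc (κ * Fs y) ^ 2 ≤ _ := a1
        _ ≤ _ := a4
        _ = _ := by ring
    have cR : Continuous (fun y => ∫ r in T..(T + 2 * (2 * ℓ)),
        b (y - r) * |P r y - P r (2 * r - y)| ^ (α + 2)) := by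
      apply intervalIntegral.continuous_parametric_intervalIntegral_of_continuous'
      exact h.cD continuous_snd continuous_fst
    have e2 : ∫ y in (0 : ℝ)..(2 * ℓ), (κ * Fs y) ^ 2 ≤
        ∫ y in (0 : ℝ)..(2 * ℓ), (2 * w * κ) *
        ∫ r in T..(T + 2 * (2 * ℓ)), b (y - r) * |P r y - P r (2 * r - y)| ^ (α + 2) :=
      intervalIntegral.integral_mono_on hl2
        (((continuous_const.mul cFs).pow 2).intervalIntegrable _ _)
        ((continuous_const.mul cR).intervalIntegrable _ _) hpt
    have e2' : ∫ y in (0 : ℝ)..(2 * ℓ), (κ * Fs y) ^ 2 = κ ^ 2 * S := by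
      rw [hS, ← intervalIntegral.integral_const_mul]
      congr 1
      funext y
      ring
    rw [intervalIntegral.integral_const_mul, e2'] at e2
    have e3 : ∫ y in (0 : ℝ)..(2 * ℓ), ∫ r in T..(T + 2 * (2 * ℓ)),
        b (y - r) * |P r y - P r (2 * r - y)| ^ (α + 2) =
        ∫ r in T..(T + 2 * (2 * ℓ)), psi α ℓ b P r := by
      rw [integral_swap_cont (F := fun y r => b (y - r) * |P r y - P r (2 * r - y)| ^ (α + 2))]
      · rfl
      · exact h.cD continuous_snd continuous_fst
    rw [e3] at e2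
    rw [e1]
    calc κ ^ 2 * S ≤ _ := e2
      _ = _ := by ring
  -- the reflected part of the bound of `V`
  set Kf : ℝ → ℝ := fun y => ∫ r in T..(T + (2 * ℓ)), W (y - r) * Fs (2 * r - y) with hKf
  have cKf : Continuous Kf := by
    apply intervalIntegral.continuous_parametric_intervalIntegral_of_continuous'
    exact (hWc.comp (by fun_prop : Continuous fun z : ℝ × ℝ => z.1 - z.2)).mul
      (cFs.comp (by fun_prop : Continuous fun z : ℝ × ℝ => 2 * z.2 - z.1))
  -- bound of `V`
  have hVb : ∀ y, V y ≤ (α + 1) * (w * Fs y + Kf y) := by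
    intro y
    have hG : ∀ r, T ≤ r → r ≤ T + (2 * ℓ) → ∀ z, |P (r + (2 * ℓ)) z - P r z| ≤ κ * Fs z := by
      intro r hr1 hr2 z
      have cfr : Continuous (fun r => |ff α b P r z|) := (h.cff continuous_id continuous_const).abs
      rw [h.P_diff (by linarith) z, abs_mul, abs_neg, abs_of_pos hκ]
      apply mul_le_mul_of_nonneg_left _ hκ.le
      calc |∫ s in r..(r + (2 * ℓ)), ff α b P s z| ≤ ∫ s in r..(r + (2 * ℓ)), |ff α b P s z| :=
            intervalIntegral.abs_integral_le_integral_abs (by linarith)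
        _ ≤ ∫ s in T..(T + 2 * (2 * ℓ)), |ff α b P s z| := by
            apply intervalIntegral.integral_mono_interval hr1 (by linarith) (by linarith)
            · exact Eventually.of_forall (fun _ => abs_nonneg _)
            · exact cfr.intervalIntegrable _ _
    have hpt : ∀ r ∈ Icc T (T + (2 * ℓ)), |ff α b P r y - ff α b P (r + (2 * ℓ)) y| ≤
        (α + 1) * Fs y * W (y - r) + (α + 1) * (W (y - r) * Fs (2 * r - y)) := by
      intro r hr
      have hbs : b (y - (r + (2 * ℓ))) = b (y - r) := by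
        rw [← h.bper (y - (r + (2 * ℓ)))]
        congr 1; ring
      have hWs : W (y - (r + (2 * ℓ))) = W (y - r) := by
        rw [← hK.per (y - (r + (2 * ℓ)))]
        congr 1; ring
      have a0 := hK.bd r y hr.1
      have a0' := hK.bd (r + 2 * ℓ) y (by linarith [hr.1])
      rw [hbs, hWs] at a0'
      have hcb : 0 ≤ κ * b (y - r) := mul_nonneg hκ.le (h.bnn _)
      have a1 := phi_diff hα hcb a0 a0'
      rw [h.D_shift] at a1
      have a2 := hG r hr.1 hr.2 y
      have a3 := hG r hr.1 hr.2 (2 * (r + (2 * ℓ)) - y)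
      have a3' : Fs (2 * (r + (2 * ℓ)) - y) = Fs (2 * r - y) := by
        have : 2 * (r + (2 * ℓ)) - y = ((2 * r - y) + 2 * ℓ) + 2 * ℓ := by ring
        rw [this, hFsp, hFsp]
      rw [a3'] at a3
      have a4 : |P (r + (2 * ℓ)) y - P r y - (P (r + (2 * ℓ)) (2 * (r + (2 * ℓ)) - y) - P r (2 * (r + (2 * ℓ)) - y))| ≤
          κ * Fs y + κ * Fs (2 * r - y) :=
        (abs_sub _ _).trans (add_le_add a2 a3)
      have a5 : 0 ≤ (α + 1) * W (y - r) := mul_nonneg (by linarith) (hK.nn _)
      have a6 := a1.trans (mul_le_mul_of_nonneg_left a4 a5)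
      have a7 : κ * |ff α b P r y - ff α b P (r + (2 * ℓ)) y| =
          κ * b (y - r) * |phi α (P (r + (2 * ℓ)) y - P (r + (2 * ℓ)) (2 * (r + (2 * ℓ)) - y)) -
              phi α (P r y - P r (2 * r - y))| := by
        rw [abs_sub_comm]
        unfold ff
        rw [hbs, ← mul_sub, abs_mul, abs_of_nonneg (h.bnn _)]
        ring
      rw [← a7] at a6
      have a8 : κ * |ff α b P r y - ff α b P (r + (2 * ℓ)) y| ≤
          κ * ((α + 1) * Fs y * W (y - r) + (α + 1) * (W (y - r) * Fs (2 * r - y))) := by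
        refine a6.trans (le_of_eq ?_)
        ring
      exact le_of_mul_le_mul_left a8 hκ
    have cW : Continuous (fun r => W (y - r)) := hWc.comp (by fun_prop)
    have cFr : Continuous (fun r => W (y - r) * Fs (2 * r - y)) :=
      cW.mul (cFs.comp (by fun_prop))
    have cc : Continuous (fun r => |ff α b P r y - ff α b P (r + (2 * ℓ)) y|) :=
      ((h.cff continuous_id continuous_const).sub (h.cff (by fun_prop) continuous_const)).abs
    have c1 : Continuous (fun r => (α + 1) * Fs y * W (y - r)) := continuous_const.mul cW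
    have c2 : Continuous (fun r => (α + 1) * (W (y - r) * Fs (2 * r - y))) :=
      continuous_const.mul cFr
    have e1 : V y ≤ ∫ r in T..(T + (2 * ℓ)), ((α + 1) * Fs y * W (y - r) +
        (α + 1) * (W (y - r) * Fs (2 * r - y))) :=
      intervalIntegral.integral_mono_on (by linarith) (cc.intervalIntegrable _ _)
        ((c1.add c2).intervalIntegrable _ _) hpt
    rw [intervalIntegral.integral_add (c1.intervalIntegrable _ _) (c2.intervalIntegrable _ _),
      intervalIntegral.integral_const_mul, intervalIntegral.integral_const_mul] at e1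
    have e2 : (α + 1) * Fs y * ∫ r in T..(T + (2 * ℓ)), W (y - r) ≤ (α + 1) * Fs y * w :=
      mul_le_mul_of_nonneg_left (hWint T y) (mul_nonneg (by linarith) (hFs0 y))
    have e3 : (α + 1) * ∫ r in T..(T + (2 * ℓ)), W (y - r) * Fs (2 * r - y) = (α + 1) * Kf y := rfl
    rw [e3] at e1
    calc V y ≤ _ := e1
      _ ≤ (α + 1) * Fs y * w + (α + 1) * Kf y := by linarith
      _ = _ := by ring
  -- the square integral of the reflected part
  have hKS : ∫ y in (0 : ℝ)..(2 * ℓ), Kf y ^ 2 ≤ w ^ 2 * S := by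
    have cWF : Continuous (fun z : ℝ × ℝ => W (z.1 - z.2) * Fs (2 * z.2 - z.1) ^ 2) :=
      (hWc.comp (by fun_prop : Continuous fun z : ℝ × ℝ => z.1 - z.2)).mul
        ((cFs.comp (by fun_prop : Continuous fun z : ℝ × ℝ => 2 * z.2 - z.1)).pow 2)
    have cR : Continuous (fun y => ∫ r in T..(T + (2 * ℓ)), W (y - r) * Fs (2 * r - y) ^ 2) := by
      apply intervalIntegral.continuous_parametric_intervalIntegral_of_continuous'
      exact cWF
    have hpt : ∀ y ∈ Icc (0 : ℝ) (2 * ℓ), Kf y ^ 2 ≤
        w * ∫ r in T..(T + (2 * ℓ)), W (y - r) * Fs (2 * r - y) ^ 2 := by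
      intro y _
      have cW : Continuous (fun r => W (y - r)) := hWc.comp (by fun_prop)
      have cFr : Continuous (fun r => Fs (2 * r - y)) := cFs.comp (by fun_prop)
      have a1 := cs_weight (by linarith : T ≤ T + 2 * ℓ)
        (p := fun r => W (y - r)) (q := fun r => W (y - r) * Fs (2 * r - y) ^ 2)
        (m := fun r => W (y - r) * Fs (2 * r - y))
        cW (cW.mul (cFr.pow 2)) (cW.mul cFr) (fun r => hK.nn _)
        (fun r => mul_nonneg (hK.nn _) (sq_nonneg _))
        (fun r => le_of_eq (by ring))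
      refine a1.trans ?_
      apply mul_le_mul_of_nonneg_right (hWint T y)
      apply intervalIntegral.integral_nonneg (by linarith)
      intro r _
      exact mul_nonneg (hK.nn _) (sq_nonneg _)
    have e1 : ∫ y in (0 : ℝ)..(2 * ℓ), Kf y ^ 2 ≤ ∫ y in (0 : ℝ)..(2 * ℓ),
        w * ∫ r in T..(T + (2 * ℓ)), W (y - r) * Fs (2 * r - y) ^ 2 :=
      intervalIntegral.integral_mono_on hl2 ((cKf.pow 2).intervalIntegrable _ _)
        ((continuous_const.mul cR).intervalIntegrable _ _) hpt
    rw [intervalIntegral.integral_const_mul,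
      integral_swap_cont (F := fun y r => W (y - r) * Fs (2 * r - y) ^ 2) cWF] at e1
    have e2 : ∀ r, ∫ y in (0 : ℝ)..(2 * ℓ), W (y - r) * Fs (2 * r - y) ^ 2 =
        ∫ y in (0 : ℝ)..(2 * ℓ), W (y - r) * Fs y ^ 2 := by
      intro r
      have a1 := integral_reflect (g := fun y => W (y - r) * Fs y ^ 2) (ℓ := ℓ) (by
        intro y
        show W (y + 2 * ℓ - r) * Fs (y + 2 * ℓ) ^ 2 = W (y - r) * Fs y ^ 2
        rw [hFsp, show y + 2 * ℓ - r = (y - r) + 2 * ℓ by ring, hK.per]) r
      rw [← a1]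
      congr 1
      funext y
      show W (y - r) * Fs (2 * r - y) ^ 2 = W (2 * r - y - r) * Fs (2 * r - y) ^ 2
      rw [show 2 * r - y - r = -(y - r) by ring, hK.even]
    have e3 : ∫ r in T..(T + (2 * ℓ)), ∫ y in (0 : ℝ)..(2 * ℓ), W (y - r) * Fs (2 * r - y) ^ 2 =
        ∫ y in (0 : ℝ)..(2 * ℓ), ∫ r in T..(T + (2 * ℓ)), W (y - r) * Fs y ^ 2 := by
      rw [integral_swap_cont (F := fun y r => W (y - r) * Fs y ^ 2)
        ((hWc.comp (by fun_prop : Continuous fun z : ℝ × ℝ => z.1 - z.2)).mul
          ((cFs.comp continuous_fst).pow 2))]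
      congr 1
      funext r
      exact e2 r
    rw [e3] at e1
    have e4 : ∫ y in (0 : ℝ)..(2 * ℓ), ∫ r in T..(T + (2 * ℓ)), W (y - r) * Fs y ^ 2 ≤
        ∫ y in (0 : ℝ)..(2 * ℓ), w * Fs y ^ 2 := by
      apply intervalIntegral.integral_mono_on hl2
      · apply Continuous.intervalIntegrable
        apply intervalIntegral.continuous_parametric_intervalIntegral_of_continuous'
        exact (hWc.comp (by fun_prop : Continuous fun z : ℝ × ℝ => z.1 - z.2)).mul
          ((cFs.comp continuous_fst).pow 2)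
      · exact (continuous_const.mul (cFs.pow 2)).intervalIntegrable _ _
      · intro y _
        rw [intervalIntegral.integral_mul_const]
        exact mul_le_mul_of_nonneg_right (hWint T y) (sq_nonneg _)
    rw [intervalIntegral.integral_const_mul, ← hS] at e4
    have e5 := mul_le_mul_of_nonneg_left e4 hw0
    calc ∫ y in (0 : ℝ)..(2 * ℓ), Kf y ^ 2 ≤ _ := e1
      _ ≤ _ := e5
      _ = _ := by ring
  have hKF : ∫ y in (0 : ℝ)..(2 * ℓ), Kf y * Fs y ≤ w * S := by
    have e1 := sq_integral_mul_le hl2 cKf cFs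
    rw [← hS] at e1
    have e2 : (∫ y in (0 : ℝ)..(2 * ℓ), Kf y * Fs y) ^ 2 ≤ (w * S) ^ 2 := by
      calc (∫ y in (0 : ℝ)..(2 * ℓ), Kf y * Fs y) ^ 2 ≤ _ := e1
        _ ≤ w ^ 2 * S * S := mul_le_mul_of_nonneg_right hKS hS0
        _ = _ := by ring
    exact le_of_abs_le (abs_le_of_sq_le_sq e2 (mul_nonneg hw0 hS0))
  -- integrate the `J` bound
  have hJ : ∫ y in (0 : ℝ)..(2 * ℓ), ∫ t in T..(T + (2 * ℓ)),
        ff α b P (t + (2 * ℓ)) y * (-κ * ∫ r in t..(t + (2 * ℓ)), ff α b P r y) ≤
      -κ * Q + κ * ((α + 1) * (2 * w * S)) := by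
    have cIn : Continuous (fun z : ℝ × ℝ => ∫ r in z.2..(z.2 + (2 * ℓ)), ff α b P r z.1) := by
      have e1 : (fun z : ℝ × ℝ => ∫ r in z.2..(z.2 + (2 * ℓ)), ff α b P r z.1) =
          fun z : ℝ × ℝ => ∫ r in (0 : ℝ)..(2 * ℓ), ff α b P (r + z.2) z.1 := by
        funext z
        rw [intervalIntegral.integral_comp_add_right (fun r => ff α b P r z.1)]
        congr 1 <;> ring
      rw [e1]
      apply intervalIntegral.continuous_parametric_intervalIntegral_of_continuous'
      exact h.cff (by fun_prop) (by fun_prop)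
    have cJ : Continuous (fun y => ∫ t in T..(T + (2 * ℓ)),
        ff α b P (t + (2 * ℓ)) y * (-κ * ∫ r in t..(t + (2 * ℓ)), ff α b P r y)) := by
      apply intervalIntegral.continuous_parametric_intervalIntegral_of_continuous'
      apply Continuous.mul
      · exact h.cff (by fun_prop) (by fun_prop)
      · exact continuous_const.mul cIn
    have hpt : ∀ y ∈ Icc (0 : ℝ) (2 * ℓ), ∫ t in T..(T + (2 * ℓ)),
        ff α b P (t + (2 * ℓ)) y * (-κ * ∫ r in t..(t + (2 * ℓ)), ff α b P r y) ≤
        -κ * F y ^ 2 + κ * (α + 1) * (w * Fs y ^ 2 + Kf y * Fs y) := by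
      intro y _
      have a1 := J_bound (g := fun r => ff α b P r y) (h.cff continuous_id continuous_const)
        (T := T) hκ (by linarith : 0 < 2 * ℓ)
      have a2 : V y * Fs y ≤ (α + 1) * (w * Fs y + Kf y) * Fs y :=
        mul_le_mul_of_nonneg_right (hVb y) (hFs0 y)
      have a3 := mul_le_mul_of_nonneg_left a2 hκ.le
      refine a1.trans ?_
      simp only [hF]
      have a4 : κ * ((∫ r in T..(T + (2 * ℓ)), |ff α b P r y - ff α b P (r + (2 * ℓ)) y|) *
          ∫ r in T..(T + 2 * (2 * ℓ)), |ff α b P r y|) = κ * (V y * Fs y) := rfl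
      rw [a4]
      linarith
    have c1 : Continuous (fun y => -κ * F y ^ 2) := continuous_const.mul (cF.pow 2)
    have c2 : Continuous (fun y => w * Fs y ^ 2) := continuous_const.mul (cFs.pow 2)
    have c3 : Continuous (fun y => Kf y * Fs y) := cKf.mul cFs
    have c4 : Continuous (fun y => w * Fs y ^ 2 + Kf y * Fs y) := c2.add c3
    have c5 : Continuous (fun y => κ * (α + 1) * (w * Fs y ^ 2 + Kf y * Fs y)) :=
      continuous_const.mul c4
    have e1 : ∫ y in (0 : ℝ)..(2 * ℓ), ∫ t in T..(T + (2 * ℓ)),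
        ff α b P (t + (2 * ℓ)) y * (-κ * ∫ r in t..(t + (2 * ℓ)), ff α b P r y) ≤
        ∫ y in (0 : ℝ)..(2 * ℓ), (-κ * F y ^ 2 + κ * (α + 1) * (w * Fs y ^ 2 + Kf y * Fs y)) :=
      intervalIntegral.integral_mono_on hl2 (cJ.intervalIntegrable _ _)
        ((c1.add c5).intervalIntegrable _ _) hpt
    rw [intervalIntegral.integral_add (c1.intervalIntegrable _ _) (c5.intervalIntegrable _ _),
      intervalIntegral.integral_const_mul, intervalIntegral.integral_const_mul,
      intervalIntegral.integral_add (c2.intervalIntegrable _ _) (c3.intervalIntegrable _ _),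
      intervalIntegral.integral_const_mul, ← hQ, ← hS] at e1
    have e2 : κ * (α + 1) * (w * S + ∫ y in (0 : ℝ)..(2 * ℓ), Kf y * Fs y) ≤
        κ * (α + 1) * (w * S + w * S) := by
      apply mul_le_mul_of_nonneg_left
      · linarith
      · exact mul_nonneg hκ.le (by linarith)
    calc _ ≤ _ := e1
      _ ≤ -κ * Q + κ * (α + 1) * (w * S + w * S) := by linarith
      _ = _ := by ring
  have hdrop := h.drop_step hT
  -- the relation of `Q` with the drop
  have hQe : (En ℓ P (T + (2 * ℓ)) - En ℓ P (T + 2 * (2 * ℓ))) ^ 2 ≤ 4 * κ ^ 2 * (En ℓ P (T + (2 * ℓ)) * Q) := by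
    have cP : Continuous (fun y => P (T + (2 * ℓ)) y) := h.contP continuous_const continuous_id
    have cP2 : Continuous (fun y => P (T + 2 * (2 * ℓ)) y) := h.contP continuous_const continuous_id
    have e1 : En ℓ P (T + (2 * ℓ)) - En ℓ P (T + 2 * (2 * ℓ)) ≤
        2 * κ * ∫ y in (0 : ℝ)..(2 * ℓ), P (T + (2 * ℓ)) y * F y := by
      have a1 : En ℓ P (T + (2 * ℓ)) - En ℓ P (T + 2 * (2 * ℓ)) =
          ∫ y in (0 : ℝ)..(2 * ℓ), (P (T + (2 * ℓ)) y ^ 2 - P (T + 2 * (2 * ℓ)) y ^ 2) := by
        have cPs : Continuous (fun y => P (T + (2 * ℓ)) y ^ 2) := cP.pow 2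
        have cPs2 : Continuous (fun y => P (T + 2 * (2 * ℓ)) y ^ 2) := cP2.pow 2
        unfold En
        rw [intervalIntegral.integral_sub (cPs.intervalIntegrable _ _)
          (cPs2.intervalIntegrable _ _)]
      rw [a1, ← intervalIntegral.integral_const_mul]
      apply intervalIntegral.integral_mono_on hl2
        (((cP.pow 2).sub (cP2.pow 2)).intervalIntegrable _ _)
        ((continuous_const.mul (cP.mul cF)).intervalIntegrable _ _)
      intro y _
      show P (T + (2 * ℓ)) y ^ 2 - P (T + 2 * (2 * ℓ)) y ^ 2 ≤ 2 * κ * (P (T + (2 * ℓ)) y * F y)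
      have a2 : P (T + 2 * (2 * ℓ)) y = P (T + (2 * ℓ)) y - κ * F y := by
        have := h.P_diff (by linarith : 0 ≤ T + (2 * ℓ)) y
        have a3 : T + (2 * ℓ) + (2 * ℓ) = T + 2 * (2 * ℓ) := by ring
        rw [a3] at this
        simp only [hF]
        linarith
      rw [a2]
      have : 0 ≤ (κ * F y) ^ 2 := sq_nonneg _
      nlinarith
    have e2 : 0 ≤ En ℓ P (T + (2 * ℓ)) - En ℓ P (T + 2 * (2 * ℓ)) := by
      have := h.En_anti (by linarith : 0 ≤ T + (2 * ℓ)) (by linarith : T + (2 * ℓ) ≤ T + 2 * (2 * ℓ))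
      linarith
    have e3 := sq_integral_mul_le hl2 cP cF
    have e4 : (En ℓ P (T + (2 * ℓ)) - En ℓ P (T + 2 * (2 * ℓ))) ^ 2 ≤
        (2 * κ * ∫ y in (0 : ℝ)..(2 * ℓ), P (T + (2 * ℓ)) y * F y) ^ 2 :=
      pow_le_pow_left₀ e2 e1 2
    have e5 : (2 * κ * ∫ y in (0 : ℝ)..(2 * ℓ), P (T + (2 * ℓ)) y * F y) ^ 2 =
        4 * κ ^ 2 * (∫ y in (0 : ℝ)..(2 * ℓ), P (T + (2 * ℓ)) y * F y) ^ 2 := by ring
    rw [e5] at e4
    refine e4.trans ?_
    apply mul_le_mul_of_nonneg_left e3 (by positivity)
  set e : ℝ := En ℓ P T - En ℓ P (T + (2 * ℓ)) with he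
  set e' : ℝ := En ℓ P (T + (2 * ℓ)) - En ℓ P (T + 2 * (2 * ℓ)) with he'
  have hee : En ℓ P T - En ℓ P (T + 2 * (2 * ℓ)) = e + e' := by rw [he, he']; ring
  rw [hee] at hSE ⊢
  have hE0 := h.En_nonneg (T + (2 * ℓ))
  -- combine
  have f1 : e' - e ≤ 2 * (α + 2) * κ * (-κ * Q + κ * ((α + 1) * (2 * w * S))) :=
    hdrop.trans (mul_le_mul_of_nonneg_left hJ (by positivity))
  have f2 : 4 * (α + 2) * (α + 1) * w * (κ ^ 2 * S) ≤
      4 * (α + 2) * (α + 1) * w * (2 * w * (e + e')) := by
    apply mul_le_mul_of_nonneg_left hSE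
    positivity
  have f3 : e' - e - 8 * (α + 2) * (α + 1) * w ^ 2 * (e + e') ≤ -(2 * (α + 2) * κ ^ 2 * Q) := by
    have f4 : 2 * (α + 2) * κ * (-κ * Q + κ * ((α + 1) * (2 * w * S))) =
        -(2 * (α + 2) * κ ^ 2 * Q) + 4 * (α + 2) * (α + 1) * w * (κ ^ 2 * S) := by ring
    have f5 : 4 * (α + 2) * (α + 1) * w * (2 * w * (e + e')) =
        8 * (α + 2) * (α + 1) * w ^ 2 * (e + e') := by ring
    rw [f4] at f1
    rw [f5] at f2
    linarith
  have f5 := mul_le_mul_of_nonneg_left f3 hE0
  have f6 := mul_le_mul_of_nonneg_left hQe (by positivity : 0 ≤ (α + 2) / 2)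
  have f7 : En ℓ P (T + (2 * ℓ)) * -(2 * (α + 2) * κ ^ 2 * Q) =
      -((α + 2) / 2 * (4 * κ ^ 2 * (En ℓ P (T + (2 * ℓ)) * Q))) := by ring
  rw [f7] at f5
  linarith

end Pool.Agent.R3B.H40
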